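import Pool.Agent.Lib.QE.All

/-!
MP_794704_al, Q1: the answer is negative.

`K = SL (sg q)` is the ring of skew Laurent series in `x` over `k(y)` (`x a(y) = a(q y) x`), `D = DK k x y` the
division subring generated by `k`, `x`, `y`. `NotConjTame k K x y` is the negated form of Q1.
-/

namespace Pool.Agent.Results.MP_794704_al.ConjugationNotTame

open QD QE

/-- Let `k` be a field and `q ∈ k` nonzero and not a root of unity.

(1) If `k` has a valuation ring `O` containing `q` such that `q = 1` in the residue field `F`, `2 ≠ 0` in `F` and `F`
has a nonsquare `d ≠ -1` (`GoodPair k q`), then there is a conjugation automorphism `c_z` of `D = k_q(x,y)`, `z ∈ K`,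
`z ∉ D`, `z D z⁻¹ = D`, which is not in the group generated by the elementary and the inner automorphisms.

(2) In particular this holds for `k = F(q)`, `q` the variable, for every field `F` of characteristic zero.

(3) It also holds for every ordered field `k` and every `q ≠ 1` in `k` which is infinitely close to `1`. -/
theorem result :
    (∀ (k : Type) [Field k] (q : kˣ), NotRoot q → GoodPair k q →
      NotConjTame k (SL (sg q)) SL.xx (SL.con RatFunc.X)) ∧
    (∀ (F : Type) [Field F] [CharZero F] (q : (RatFunc F)ˣ), (q : RatFunc F) = RatFunc.X →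
      NotConjTame (RatFunc F) (SL (sg q)) SL.xx (SL.con RatFunc.X)) ∧
    (∀ (k : Type) [Field k] [LinearOrder k] [IsStrictOrderedRing k] (q : kˣ), (q : k) ≠ 1 →
      (∀ n : ℕ, 0 < n → |(q : k) - 1| < 1 / n) →
      NotConjTame k (SL (sg q)) SL.xx (SL.con RatFunc.X)) :=
  ⟨fun k _ q hq hG => main k q hG hq, fun F _ _ q hq => main_generic F q hq,
    fun k _ _ _ q h1 hq => main_ordered k q h1 hq⟩

end Pool.Agent.Results.MP_794704_al.ConjugationNotTame
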